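import Mathlib

open MeasureTheory Set

namespace Pool.Agent.TH432.TK

/-- The open simplex of size `r`. -/
def So (n : ℕ) (r : ℝ) : Set (Fin n → ℝ) := {x | (∀ i, 0 < x i) ∧ ∑ i, x i < r}

theorem int_simplex (n : ℕ) (r : ℝ) (hr : 0 ≤ r) :
    ∫⁻ z in Ioo (0 : ℝ) r, ENNReal.ofReal ((r - z) ^ n / n.factorial) =
      ENNReal.ofReal (r ^ (n + 1) / (n + 1).factorial) := by
  have hcont : Continuous fun z : ℝ => (r - z) ^ n / (n.factorial : ℝ) := by fun_prop
  rw [← ofReal_integral_eq_lintegral_ofReal]
  · congr 1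
    rw [← integral_Ioc_eq_integral_Ioo, ← intervalIntegral.integral_of_le hr,
      intervalIntegral.integral_div,
      intervalIntegral.integral_comp_sub_left (fun x => x ^ n) r, integral_pow]
    rw [Nat.factorial_succ]
    push_cast
    have : (n.factorial : ℝ) ≠ 0 := by positivity
    have h2 : (n : ℝ) + 1 ≠ 0 := by positivity
    field_simp
    simp
  · exact hcont.continuousOn.integrableOn_Icc.mono_set Ioo_subset_Icc_self
  · refine (ae_restrict_iff' measurableSet_Ioo).mpr (Filter.Eventually.of_forall fun z hz => ?_)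
    have : 0 ≤ r - z := by linarith [hz.2]
    simp only [Pi.zero_apply]
    positivity

theorem vol_So (n : ℕ) : ∀ r : ℝ, 0 < r →
    volume (So n r) = ENNReal.ofReal (r ^ n / n.factorial) := by
  induction n with
  | zero =>
    intro r hr
    have h : So 0 r = univ := by
      ext x
      simp [So, hr]
    rw [h]
    simp [volume_pi, Measure.pi_of_empty]
  | succ n ih =>
    intro r hr
    have hA : MeasurableSet {q : ℝ × (Fin n → ℝ) | 0 < q.1 ∧ (∀ i, 0 < q.2 i) ∧
        q.1 + ∑ i, q.2 i < r} := by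
      have h : {q : ℝ × (Fin n → ℝ) | 0 < q.1 ∧ (∀ i, 0 < q.2 i) ∧
        q.1 + ∑ i, q.2 i < r} = {q | 0 < q.1} ∩ ((⋂ i, {q : ℝ × (Fin n → ℝ) | 0 < q.2 i}) ∩
          {q | q.1 + ∑ i, q.2 i < r}) := by
        ext q
        simp
      rw [h]
      refine (measurableSet_lt measurable_const measurable_fst).inter
        ((MeasurableSet.iInter fun i => ?_).inter ?_)
      · exact measurableSet_lt measurable_const (by fun_prop)
      · exact measurableSet_lt (by fun_prop) measurable_const
    have h1 : volume (So (n + 1) r) = volume {q : ℝ × (Fin n → ℝ) | 0 < q.1 ∧ (∀ i, 0 < q.2 i) ∧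
        q.1 + ∑ i, q.2 i < r} := by
      rw [← (volume_preserving_piFinSuccAbove (fun _ : Fin (n + 1) => ℝ) 0).measure_preimage
        hA.nullMeasurableSet]
      congr 1
      ext x
      simp only [So, Set.mem_ofPred_eq, Set.mem_preimage]
      rw [Fin.sum_univ_succ, Fin.forall_fin_succ, and_assoc]
      simp [MeasurableEquiv.piFinSuccAbove, Fin.tail]
    rw [h1, Measure.volume_eq_prod, Measure.prod_apply hA, ← int_simplex n r hr.le,
      ← lintegral_indicator measurableSet_Ioo]
    congr 1
    ext z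
    by_cases hz : z ∈ Ioo (0 : ℝ) r
    · rw [indicator_of_mem hz, ← ih (r - z) (by linarith [hz.2])]
      congr 1
      ext w
      simp only [So, Set.mem_ofPred_eq, Set.mem_preimage]
      constructor
      · rintro ⟨_, h2, h3⟩
        exact ⟨h2, by linarith⟩
      · rintro ⟨h2, h3⟩
        exact ⟨hz.1, h2, by linarith⟩
    · rw [indicator_of_notMem hz]
      have : (Prod.mk z ⁻¹' {q : ℝ × (Fin n → ℝ) | 0 < q.1 ∧ (∀ i, 0 < q.2 i) ∧
        q.1 + ∑ i, q.2 i < r}) = ∅ := by
        ext w
        simp only [Set.mem_ofPred_eq, Set.mem_preimage, Set.mem_empty_iff_false, iff_false]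
        rintro ⟨h1, h2, h3⟩
        apply hz
        have h4 : 0 ≤ ∑ i, w i := Finset.sum_nonneg fun i _ => (h2 i).le
        exact ⟨h1, by linarith⟩
      rw [this, measure_empty]

end Pool.Agent.TH432.TK
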